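import Pool.Agent.W669.HD.Stm3

/-!
Subtask HD3-EXb (owner helper669, MP_5a30bb_gt): the explicit sum in dimension six.
-/

set_option autoImplicit false

namespace Pool.Agent.W654.HD

open Pool.Agent.W666.GB Pool.Agent.W669.HD Finset Equiv

/-- index set -/
abbrev J : Type := Fin 3 × Bool

/-- numbering -/
def n (x : J) : ℤ := 2 * (x.1 : ℕ) + (if x.2 then 1 else 0)

/-- the numbering as an equivalence -/
def eJ : J ≃ Fin 6 where
  toFun x := ⟨2 * x.1.val + (if x.2 then 1 else 0), by
    have := x.1.isLt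
    split_ifs <;> omega⟩
  invFun y := (⟨y.val / 2, by have := y.isLt; omega⟩, decide (y.val % 2 = 1))
  left_inv := by decide
  right_inv := by decide

/-- four differences -/
def Q (a b c d : ℤ) : ℤ := (c - a) * (d - a) * (c - b) * (d - b)

/-- the product of all differences -/
def V (a b c d e f : ℤ) : ℤ :=
  (b - a) * (d - c) * (f - e) * Q a b c d * Q a b e f * Q c d e f

theorem Q_swap1 (a b c d : ℤ) : Q b a c d = Q a b c d := by unfold Q; ring

theorem Q_swap2 (a b c d : ℤ) : Q a b d c = Q a b c d := by unfold Q; ring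

theorem V_swap1 (a b c d e f : ℤ) : V b a c d e f = - V a b c d e f := by
  unfold V
  rw [Q_swap1 a b, Q_swap1 a b]
  have : a - b = -(b - a) := by ring
  rw [this]
  simp only [neg_mul]

theorem V_swap2 (a b c d e f : ℤ) : V a b d c e f = - V a b c d e f := by
  unfold V
  rw [Q_swap2 a b c d, Q_swap1 c d]
  have : c - d = -(d - c) := by ring
  rw [this]
  simp only [neg_mul, mul_neg]

theorem V_swap3 (a b c d e f : ℤ) : V a b c d f e = - V a b c d e f := by
  unfold V
  rw [Q_swap2 a b e f, Q_swap2 c d e f]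
  have : e - f = -(f - e) := by ring
  rw [this]
  simp only [neg_mul, mul_neg]

theorem vand (v : Fin 6 → ℤ) : (Matrix.vandermonde v).det = V (v 0) (v 1) (v 2) (v 3) (v 4) (v 5) := by
  rw [Matrix.det_vandermonde, Fin.prod_univ_six]
  have h0 : Finset.Ioi (0 : Fin 6) = {1, 2, 3, 4, 5} := by decide
  have h1 : Finset.Ioi (1 : Fin 6) = {2, 3, 4, 5} := by decide
  have h2 : Finset.Ioi (2 : Fin 6) = {3, 4, 5} := by decide
  have h3 : Finset.Ioi (3 : Fin 6) = {4, 5} := by decide
  have h4 : Finset.Ioi (4 : Fin 6) = {5} := by decide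
  have h5 : Finset.Ioi (5 : Fin 6) = ∅ := by decide
  rw [h0, h1, h2, h3, h4, h5]
  rw [Finset.prod_insert (by decide), Finset.prod_insert (by decide),
    Finset.prod_insert (by decide), Finset.prod_insert (by decide), Finset.prod_singleton,
    Finset.prod_insert (by decide), Finset.prod_insert (by decide),
    Finset.prod_insert (by decide), Finset.prod_singleton,
    Finset.prod_insert (by decide), Finset.prod_insert (by decide), Finset.prod_singleton,
    Finset.prod_insert (by decide), Finset.prod_singleton, Finset.prod_singleton,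
    Finset.prod_empty]
  unfold V Q
  generalize v 1 - v 0 = d01
  generalize v 2 - v 0 = d02
  generalize v 3 - v 0 = d03
  generalize v 4 - v 0 = d04
  generalize v 5 - v 0 = d05
  generalize v 2 - v 1 = d12
  generalize v 3 - v 1 = d13
  generalize v 4 - v 1 = d14
  generalize v 5 - v 1 = d15
  generalize v 3 - v 2 = d23
  generalize v 4 - v 2 = d24
  generalize v 5 - v 2 = d25
  generalize v 4 - v 3 = d34
  generalize v 5 - v 3 = d35
  generalize v 5 - v 4 = d45
  ring

/-- value of the product of differences at a function on the index set -/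
def VF (t : J → J) : ℤ := V (n (t (0, false))) (n (t (0, true))) (n (t (1, false)))
  (n (t (1, true))) (n (t (2, false))) (n (t (2, true)))

theorem n_eq (x : J) : n x = (((eJ x : Fin 6) : ℕ) : ℤ) := by
  revert x; decide

theorem VF_eq (t : J → J) : VF t = (Matrix.vandermonde fun x : Fin 6 =>
    (((eJ (t (eJ.symm x)) : Fin 6) : ℕ) : ℤ)).det := by
  rw [vand]
  unfold VF
  simp only [n_eq]
  rfl

theorem sgn (σ : Perm J) : ((Perm.sign σ : ℤˣ) : ℤ) * 34560 = VF σ := by
  rw [VF_eq]
  have h1 : (Matrix.vandermonde fun x : Fin 6 => (((eJ (σ (eJ.symm x)) : Fin 6) : ℕ) : ℤ)) =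
      (Matrix.vandermonde fun x : Fin 6 => (((x : Fin 6) : ℕ) : ℤ)).submatrix
        (eJ.permCongr σ) id := by
    ext i j
    simp [Matrix.vandermonde_apply, Equiv.permCongr_apply]
  rw [h1, Matrix.det_permute, Equiv.Perm.sign_permCongr, vand]
  rfl

theorem VF_zero (t : J → J) (h : ¬ Function.Injective t) : VF t = 0 := by
  rw [VF_eq, Matrix.det_vandermonde_eq_zero_iff]
  unfold Function.Injective at h
  push Not at h
  obtain ⟨x, y, hxy, hne⟩ := h
  refine ⟨eJ x, eJ y, ?_, fun h => hne (eJ.injective h)⟩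
  simp only [Equiv.symm_apply_apply, hxy]

theorem ext_sum (F : (J → J) → ℤ) (hF : ∀ t, ¬ Function.Injective t → F t = 0) :
    ∑ σ : Perm J, F σ = ∑ t : J → J, F t := by
  classical
  rw [← Finset.sum_subset (Finset.filter_subset (fun t : J → J => Function.Bijective t) univ)
    (fun t _ ht => hF t fun hi => ht (Finset.mem_filter.2 ⟨Finset.mem_univ _,
      Finite.injective_iff_bijective.1 hi⟩))]
  symm
  exact Finset.sum_bij (fun p h => Equiv.ofBijective p (Finset.mem_filter.1 h).2)
    (fun _ _ => Finset.mem_univ _) (fun _ _ _ _ h => by injection h)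
    (fun b _ => ⟨b, Finset.mem_filter.2 ⟨Finset.mem_univ _, b.bijective⟩,
      Equiv.coe_fn_injective rfl⟩) fun _ _ => rfl

/-- functions as tuples -/
def eT : (J → J) ≃ J × J × J × J × J × J where
  toFun t := (t (0, false), t (0, true), t (1, false), t (1, true), t (2, false), t (2, true))
  invFun p := fun x =>
    if x = (0, false) then p.1 else if x = (0, true) then p.2.1 else
    if x = (1, false) then p.2.2.1 else if x = (1, true) then p.2.2.2.1 else
    if x = (2, false) then p.2.2.2.2.1 else p.2.2.2.2.2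
  left_inv t := by
    funext x
    obtain ⟨b, c⟩ := x
    fin_cases b <;> cases c <;> rfl
  right_inv p := by
    obtain ⟨a, b, c, d, e, f⟩ := p
    rfl

theorem six_sum (G : J → J → J → J → J → J → ℤ) :
    ∑ t : J → J, G (t (0, false)) (t (0, true)) (t (1, false)) (t (1, true)) (t (2, false))
      (t (2, true)) = ∑ a, ∑ b, ∑ c, ∑ d, ∑ e, ∑ f, G a b c d e f := by
  refine (Fintype.sum_equiv eT _ (fun p : J × J × J × J × J × J =>
    G p.1 p.2.1 p.2.2.1 p.2.2.2.1 p.2.2.2.2.1 p.2.2.2.2.2) (fun t => rfl)).trans ?_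
  simp only [Fintype.sum_prod_type]

/-- elementary skew forms -/
def E (p : J × J) (i j : J) : ℤ :=
  (if i = p.1 then (if j = p.2 then 1 else 0) else 0) -
    (if i = p.2 then (if j = p.1 then 1 else 0) else 0)

theorem sum_E (p : J × J) (X : J → J → ℤ) (hX : ∀ i j, X j i = - X i j) :
    ∑ i, ∑ j, X i j * E p i j = 2 * X p.1 p.2 := by
  unfold E
  simp only [mul_sub, Finset.sum_sub_distrib, mul_ite, mul_one, mul_zero]
  have h1 : ∀ (a b : J), ∑ i, ∑ j, (if i = a then (if j = b then X i j else 0) else 0) = X a b := by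
    intro a b
    rw [Finset.sum_eq_single a, Finset.sum_eq_single b]
    · simp
    · intro j _ hj; simp [hj]
    · intro h; exact absurd (Finset.mem_univ _) h
    · intro i _ hi; simp [hi]
    · intro h; exact absurd (Finset.mem_univ _) h
  rw [h1, h1, hX p.1 p.2]
  ring

/-- the alternating sum -/
def T (p q r : J × J) : ℤ := ∑ σ : Perm J, ((Perm.sign σ : ℤˣ) : ℤ) *
  (E p (σ (0, false)) (σ (0, true)) * E q (σ (1, false)) (σ (1, true)) *
    E r (σ (2, false)) (σ (2, true)))

/-- product of differences for pairs -/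
def V3 (p q r : J × J) : ℤ := V (n p.1) (n p.2) (n q.1) (n q.2) (n r.1) (n r.2)

theorem T_eq (p q r : J × J) : 34560 * T p q r = 8 * V3 p q r := by
  obtain ⟨F, hF⟩ : ∃ F : (J → J) → ℤ, F = fun t : J → J => VF t *
      (E p (t (0, false)) (t (0, true)) * E q (t (1, false)) (t (1, true)) *
        E r (t (2, false)) (t (2, true))) := ⟨_, rfl⟩
  have h1 : 34560 * T p q r = ∑ σ : Perm J, F σ := by
    unfold T
    rw [Finset.mul_sum]
    refine Finset.sum_congr rfl fun σ _ => ?_
    rw [hF]
    simp only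
    rw [← sgn]
    ring
  rw [h1, ext_sum F (fun t ht => by rw [hF]; simp only [VF_zero t ht, zero_mul]), hF]
  unfold VF
  rw [six_sum (fun a b c d e f => V (n a) (n b) (n c) (n d) (n e) (n f) *
    (E p a b * E q c d * E r e f))]
  have h2 : ∀ a b c d : J, ∑ e, ∑ f, V (n a) (n b) (n c) (n d) (n e) (n f) *
      (E p a b * E q c d * E r e f) =
      (E p a b * E q c d) * (2 * V (n a) (n b) (n c) (n d) (n r.1) (n r.2)) := by
    intro a b c d
    rw [← sum_E r (fun e f => V (n a) (n b) (n c) (n d) (n e) (n f))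
      (fun e f => V_swap3 _ _ _ _ _ _), Finset.mul_sum]
    refine Finset.sum_congr rfl fun e _ => ?_
    rw [Finset.mul_sum]
    refine Finset.sum_congr rfl fun f _ => ?_
    ring
  simp only [h2]
  have h3 : ∀ a b : J, ∑ c, ∑ d, (E p a b * E q c d) *
      (2 * V (n a) (n b) (n c) (n d) (n r.1) (n r.2)) =
      E p a b * (4 * V (n a) (n b) (n q.1) (n q.2) (n r.1) (n r.2)) := by
    intro a b
    have h4 := sum_E q (fun c d => V (n a) (n b) (n c) (n d) (n r.1) (n r.2))
      (fun c d => V_swap2 _ _ _ _ _ _)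
    calc ∑ c, ∑ d, (E p a b * E q c d) * (2 * V (n a) (n b) (n c) (n d) (n r.1) (n r.2))
        = (2 * E p a b) * ∑ c, ∑ d, V (n a) (n b) (n c) (n d) (n r.1) (n r.2) * E q c d := by
          rw [Finset.mul_sum]
          refine Finset.sum_congr rfl fun c _ => ?_
          rw [Finset.mul_sum]
          refine Finset.sum_congr rfl fun d _ => ?_
          ring
      _ = _ := by rw [h4]; ring
  simp only [h3]
  have h5 := sum_E p (fun a b => V (n a) (n b) (n q.1) (n q.2) (n r.1) (n r.2))
      (fun c d => V_swap1 _ _ _ _ _ _)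
  calc ∑ a, ∑ b, E p a b * (4 * V (n a) (n b) (n q.1) (n q.2) (n r.1) (n r.2))
      = 4 * ∑ a, ∑ b, V (n a) (n b) (n q.1) (n q.2) (n r.1) (n r.2) * E p a b := by
        rw [Finset.mul_sum]
        refine Finset.sum_congr rfl fun c _ => ?_
        rw [Finset.mul_sum]
        refine Finset.sum_congr rfl fun d _ => ?_
        ring
    _ = _ := by rw [h5]; unfold V3; ring

/-! ### The tensor -/

/-- integer version of `al` -/
def alZ (s : Fin 3) (i j : J) : ℤ :=
  if i.2 = j.2 then
    (if i.1 = s + 1 ∧ j.1 = s + 2 then 1 else if i.1 = s + 2 ∧ j.1 = s + 1 then -1 else 0) else 0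

/-- integer version of `pr` -/
def prZ (s : Fin 3) (i j k l : J) : ℤ :=
  2 * (alZ s i j * alZ s k l) - alZ s j k * alZ s i l - alZ s k i * alZ s j l

/-- the sum -/
def PZ (i j k l : J) : ℤ := prZ 0 i j k l + prZ 1 i j k l + prZ 2 i j k l

theorem al_cast (s : Fin 3) (i j : J) : al s i j = ((alZ s i j : ℤ) : ℝ) := by
  unfold al alZ
  split_ifs <;> simp

theorem PZ_cast (i j k l : J) : pr 0 i j k l + pr 1 i j k l + pr 2 i j k l =
    ((PZ i j k l : ℤ) : ℝ) := by
  unfold pr PZ prZ
  simp only [al_cast]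
  push_cast
  ring

/-- the elementary terms -/
def L : List (ℤ × (J × J) × (J × J)) :=
  [(1, ((0, false), (0, true)), ((1, false), (1, true))),
   (1, ((0, false), (0, true)), ((2, false), (2, true))),
   (3, ((0, false), (1, false)), ((0, false), (1, false))),
   (2, ((0, false), (1, false)), ((0, true), (1, true))),
   (1, ((0, false), (1, true)), ((0, true), (1, false))),
   (3, ((0, false), (2, false)), ((0, false), (2, false))),
   (2, ((0, false), (2, false)), ((0, true), (2, true))),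
   (1, ((0, false), (2, true)), ((0, true), (2, false))),
   (1, ((0, true), (1, false)), ((0, false), (1, true))),
   (2, ((0, true), (1, true)), ((0, false), (1, false))),
   (3, ((0, true), (1, true)), ((0, true), (1, true))),
   (1, ((0, true), (2, false)), ((0, false), (2, true))),
   (2, ((0, true), (2, true)), ((0, false), (2, false))),
   (3, ((0, true), (2, true)), ((0, true), (2, true))),
   (1, ((1, false), (1, true)), ((0, false), (0, true))),
   (1, ((1, false), (1, true)), ((2, false), (2, true))),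
   (3, ((1, false), (2, false)), ((1, false), (2, false))),
   (2, ((1, false), (2, false)), ((1, true), (2, true))),
   (1, ((1, false), (2, true)), ((1, true), (2, false))),
   (1, ((1, true), (2, false)), ((1, false), (2, true))),
   (2, ((1, true), (2, true)), ((1, false), (2, false))),
   (3, ((1, true), (2, true)), ((1, true), (2, true))),
   (1, ((2, false), (2, true)), ((0, false), (0, true))),
   (1, ((2, false), (2, true)), ((1, false), (1, true)))]

theorem PZ_eq : ∀ i j k l : J, PZ i j k l =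
    (L.map fun e => e.1 * (E e.2.1 i j * E e.2.2 k l)).sum := by decide +kernel

theorem PZ_eq' (i j k l : J) : PZ i j k l =
    ∑ e : Fin L.length, (L.get e).1 * (E (L.get e).2.1 i j * E (L.get e).2.2 k l) := by
  rw [PZ_eq, ← List.sum_ofFn]
  congr 1

/-- the kernel computation -/
def tot : ℤ := (L.map fun e0 => (L.map fun e1 =>
  if Q (n e0.2.1.1) (n e0.2.1.2) (n e1.2.1.1) (n e1.2.1.2) = 0 then 0 else
  if Q (n e0.2.2.1) (n e0.2.2.2) (n e1.2.2.1) (n e1.2.2.2) = 0 then 0 else
  (L.map fun e2 => e0.1 * e1.1 * e2.1 *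
    (V3 e0.2.1 e1.2.1 e2.2.1 * V3 e0.2.2 e1.2.2 e2.2.2)).sum).sum).sum

theorem tot_neg : tot < 0 := by decide +kernel

/-! ### Assembly -/

theorem sum_get (f : ℤ × (J × J) × (J × J) → ℤ) :
    (L.map f).sum = ∑ e : Fin L.length, f (L.get e) := by
  rw [← List.sum_ofFn]
  congr 1

/-- indices of the terms -/
abbrev FL : Type := Fin L.length

/-- weight of a triple of terms -/
def wt (e : FL × FL × FL) : ℤ :=
  (L.get e.1).1 * (L.get e.2.1).1 * (L.get e.2.2).1

theorem V3_zero {p q : J × J} (r : J × J) (h : Q (n p.1) (n p.2) (n q.1) (n q.2) = 0) :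
    V3 p q r = 0 := by
  unfold V3 V
  rw [h]
  ring

theorem tot_eq : tot = ∑ e : FL × FL × FL, wt e *
    (V3 (L.get e.1).2.1 (L.get e.2.1).2.1 (L.get e.2.2).2.1 *
      V3 (L.get e.1).2.2 (L.get e.2.1).2.2 (L.get e.2.2).2.2) := by
  unfold tot wt
  rw [sum_get, Fintype.sum_prod_type]
  refine Finset.sum_congr rfl fun e0 _ => ?_
  rw [sum_get, Fintype.sum_prod_type]
  refine Finset.sum_congr rfl fun e1 _ => ?_
  split_ifs with h1 h2
  · symm
    exact Finset.sum_eq_zero fun e2 _ => by rw [V3_zero _ h1]; ring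
  · symm
    exact Finset.sum_eq_zero fun e2 _ => by
      rw [V3_zero (p := (L.get e0).2.2) (q := (L.get e1).2.2) _ h2]; ring
  · rw [sum_get]

/-- integer version of the sum -/
def GZ : ℤ := ∑ σ : Perm J, ∑ τ : Perm J, ((Perm.sign σ : ℤˣ) : ℤ) * ((Perm.sign τ : ℤˣ) : ℤ) *
  (PZ (σ (0, false)) (σ (0, true)) (τ (0, false)) (τ (0, true)) *
    PZ (σ (1, false)) (σ (1, true)) (τ (1, false)) (τ (1, true)) *
    PZ (σ (2, false)) (σ (2, true)) (τ (2, false)) (τ (2, true)))

/-- product of three elementary forms at a permutation -/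
def EE (p q r : J × J) (σ : Perm J) : ℤ := E p (σ (0, false)) (σ (0, true)) *
  E q (σ (1, false)) (σ (1, true)) * E r (σ (2, false)) (σ (2, true))

theorem prod3 (σ τ : Perm J) :
    PZ (σ (0, false)) (σ (0, true)) (τ (0, false)) (τ (0, true)) *
    PZ (σ (1, false)) (σ (1, true)) (τ (1, false)) (τ (1, true)) *
    PZ (σ (2, false)) (σ (2, true)) (τ (2, false)) (τ (2, true)) =
    ∑ e : FL × FL × FL, wt e *
      (EE (L.get e.1).2.1 (L.get e.2.1).2.1 (L.get e.2.2).2.1 σ *
        EE (L.get e.1).2.2 (L.get e.2.1).2.2 (L.get e.2.2).2.2 τ) := by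
  rw [PZ_eq', PZ_eq', PZ_eq', Finset.sum_mul_sum, Finset.sum_mul, Fintype.sum_prod_type]
  refine Finset.sum_congr rfl fun e0 _ => ?_
  rw [Finset.sum_mul_sum, Fintype.sum_prod_type]
  refine Finset.sum_congr rfl fun e1 _ => ?_
  refine Finset.sum_congr rfl fun e2 _ => ?_
  unfold wt EE
  ring

theorem GZ_eq : GZ = ∑ e : FL × FL × FL, wt e *
    (T (L.get e.1).2.1 (L.get e.2.1).2.1 (L.get e.2.2).2.1 *
      T (L.get e.1).2.2 (L.get e.2.1).2.2 (L.get e.2.2).2.2) := by
  unfold GZ
  simp only [prod3]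
  simp only [Finset.mul_sum]
  have h1 : ∀ σ : Perm J, ∑ τ : Perm J, ∑ e : FL × FL × FL,
      ((Perm.sign σ : ℤˣ) : ℤ) * ((Perm.sign τ : ℤˣ) : ℤ) * (wt e *
        (EE (L.get e.1).2.1 (L.get e.2.1).2.1 (L.get e.2.2).2.1 σ *
          EE (L.get e.1).2.2 (L.get e.2.1).2.2 (L.get e.2.2).2.2 τ)) =
      ∑ e : FL × FL × FL, ∑ τ : Perm J,
      ((Perm.sign σ : ℤˣ) : ℤ) * ((Perm.sign τ : ℤˣ) : ℤ) * (wt e *
        (EE (L.get e.1).2.1 (L.get e.2.1).2.1 (L.get e.2.2).2.1 σ *
          EE (L.get e.1).2.2 (L.get e.2.1).2.2 (L.get e.2.2).2.2 τ)) :=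
    fun σ => Finset.sum_comm
  simp only [h1]
  rw [Finset.sum_comm]
  refine Finset.sum_congr rfl fun e _ => ?_
  unfold T
  rw [Finset.sum_mul_sum, Finset.mul_sum]
  refine Finset.sum_congr rfl fun σ _ => ?_
  rw [Finset.mul_sum]
  refine Finset.sum_congr rfl fun τ _ => ?_
  unfold EE
  ring

theorem GZ_tot : 34560 ^ 2 * GZ = 64 * tot := by
  rw [GZ_eq, tot_eq, Finset.mul_sum, Finset.mul_sum]
  refine Finset.sum_congr rfl fun e _ => ?_
  have h1 := T_eq (L.get e.1).2.1 (L.get e.2.1).2.1 (L.get e.2.2).2.1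
  have h2 := T_eq (L.get e.1).2.2 (L.get e.2.1).2.2 (L.get e.2.2).2.2
  calc 34560 ^ 2 * (wt e * (T (L.get e.1).2.1 (L.get e.2.1).2.1 (L.get e.2.2).2.1 *
        T (L.get e.1).2.2 (L.get e.2.1).2.2 (L.get e.2.2).2.2))
      = wt e * ((34560 * T (L.get e.1).2.1 (L.get e.2.1).2.1 (L.get e.2.2).2.1) *
        (34560 * T (L.get e.1).2.2 (L.get e.2.1).2.2 (L.get e.2.2).2.2)) := by ring
    _ = _ := by rw [h1, h2]; ring

theorem gm_cast :
    gm (fun _ : Fin 3 => (fun i j k l => pr 0 i j k l + pr 1 i j k l + pr 2 i j k l : T4 3)) =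
      ((GZ : ℤ) : ℝ) := by
  unfold gm GZ
  simp only [PZ_cast, Fin.prod_univ_three, sn]
  push_cast
  rfl

theorem neg_aux {g t : ℤ} (h1 : 34560 ^ 2 * g = 64 * t) (h2 : t < 0) : g < 0 := by
  by_contra h
  push Not at h
  have h3 : 0 ≤ 34560 ^ 2 * g := mul_nonneg (by norm_num) h
  linarith

/-- Subtask HD3-EX. -/
theorem main : Pool.Agent.W669.HD.S_EX := by
  unfold S_EX
  rw [gm_cast]
  exact Int.cast_lt_zero.2 (neg_aux GZ_tot tot_neg)

end Pool.Agent.W654.HD
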